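import Mathlib
import Pool.Agent.LeoC.UpStmts

/-!
# AVV: the volume of a set defined by signs and absolute values
-/

set_option autoImplicit false

open NumberField NumberField.InfinitePlace NumberField.mixedEmbedding IsDedekindDomain Module
  MeasureTheory Filter Topology
open Pool.Agent.LeoK Pool.Agent.LeoG

open scoped Classical

namespace Pool.Agent.LeoC.H25

open Pool.Agent.LeoC

variable {k : Type} [Field k]

lemma ev_real (w : {w : InfinitePlace k // IsReal w}) (y : MS k) : ev w.1 y = (y.1 w : ℂ) := by
  unfold ev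
  rw [dif_pos w.2]

lemma ev_complex (w : {w : InfinitePlace k // IsComplex w}) (y : MS k) : ev w.1 y = y.2 w := by
  unfold ev
  rw [dif_neg (not_isReal_iff_isComplex.2 w.2)]

/-- the sign of a place -/
noncomputable def sg (N : Set {w : InfinitePlace k // IsReal w}) (v : InfinitePlace k) : ℝ :=
  if ∃ h : IsReal v, (⟨v, h⟩ : {w : InfinitePlace k // IsReal w}) ∈ N then -1 else 1

/-- change of signs -/
noncomputable def flp (N : Set {w : InfinitePlace k // IsReal w}) (x : PS k) : PS k :=
  fun v => sg N v * x v

lemma sg_mem {N : Set {w : InfinitePlace k // IsReal w}} {w : {w : InfinitePlace k // IsReal w}}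
    (h : w ∈ N) : sg N w.1 = -1 := if_pos ⟨w.2, h⟩

lemma sg_notMem {N : Set {w : InfinitePlace k // IsReal w}} {w : {w : InfinitePlace k // IsReal w}}
    (h : w ∉ N) : sg N w.1 = 1 := if_neg fun ⟨_, h'⟩ => h h'

lemma sg_complex {N : Set {w : InfinitePlace k // IsReal w}}
    (w : {w : InfinitePlace k // IsComplex w}) : sg N w.1 = 1 :=
  if_neg fun ⟨h, _⟩ => (not_isReal_iff_isComplex.2 w.2) h

lemma mp_flp [NumberField k] (N : Set {w : InfinitePlace k // IsReal w}) :
    MeasurePreserving (flp N : PS k → PS k) := by
  refine volume_preserving_pi (f := fun v t => sg N v * t) fun v => ?_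
  unfold sg
  split_ifs
  · simp only [neg_mul, one_mul]
    exact Measure.measurePreserving_neg volume
  · simp only [one_mul]
    exact MeasurePreserving.id volume

lemma set_eq (N : Set {w : InfinitePlace k // IsReal w}) (A : Set (PS k))
    (hA : ∀ x ∈ A, ∀ v, 0 < x v) :
    {y : MS k | Sgn N y ∧ av y ∈ A} = normAtComplexPlaces ⁻¹' (flp N ⁻¹' A) := by
  have hR : ∀ (y : MS k) (w : {w : InfinitePlace k // IsReal w}),
      normAtComplexPlaces y w.1 = y.1 w := fun y w => normAtComplexPlaces_apply_isReal w
  have hC : ∀ (y : MS k) (w : {w : InfinitePlace k // IsComplex w}),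
      normAtComplexPlaces y w.1 = ‖y.2 w‖ := fun y w => normAtComplexPlaces_apply_isComplex w
  have key : ∀ y : MS k, Sgn N y → av y = flp N (normAtComplexPlaces y) := by
    intro y hy
    funext v
    unfold av flp
    rcases isReal_or_isComplex v with h | h
    · have e1 := ev_real ⟨v, h⟩ y
      have e2 := hR y ⟨v, h⟩
      simp only at e1 e2
      rw [e1, e2, Complex.norm_real, Real.norm_eq_abs]
      by_cases hN : (⟨v, h⟩ : {w : InfinitePlace k // IsReal w}) ∈ N
      · rw [sg_mem hN, abs_of_neg ((hy.1 _).1 hN)]
        ring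
      · rw [sg_notMem hN, abs_of_pos ((hy.1 _).2 hN), one_mul]
    · have e1 := ev_complex ⟨v, h⟩ y
      have e2 := hC y ⟨v, h⟩
      simp only at e1 e2
      rw [e1, e2, sg_complex ⟨v, h⟩, one_mul]
  ext y
  simp only [Set.mem_ofPred_eq, Set.mem_preimage]
  constructor
  · rintro ⟨h1, h2⟩
    rw [← key y h1]
    exact h2
  · intro h
    have hs : Sgn N y := by
      refine ⟨fun w => ⟨fun hw => ?_, fun hw => ?_⟩, fun w => ?_⟩
      · have h1 := hA _ h w.1
        unfold flp at h1
        rw [hR, sg_mem hw] at h1
        linarith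
      · have h1 := hA _ h w.1
        unfold flp at h1
        rw [hR, sg_notMem hw] at h1
        linarith
      · have h1 := hA _ h w.1
        unfold flp at h1
        rw [hC, sg_complex w, one_mul] at h1
        exact norm_pos_iff.1 h1
    refine ⟨hs, ?_⟩
    rw [key y hs]
    exact h

lemma continuous_nacp : Continuous (normAtComplexPlaces : MS k → PS k) := by
  refine continuous_pi fun v => ?_
  rcases isReal_or_isComplex v with h | h
  · have e : (fun y : MS k => normAtComplexPlaces y v) = fun y => y.1 ⟨v, h⟩ :=
      funext fun y => normAtComplexPlaces_apply_isReal ⟨v, h⟩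
    rw [e]
    fun_prop
  · have e : (fun y : MS k => normAtComplexPlaces y v) = fun y => ‖y.2 ⟨v, h⟩‖ :=
      funext fun y => normAtComplexPlaces_apply_isComplex ⟨v, h⟩
    rw [e]
    fun_prop

lemma prod_eq [NumberField k] (x : PS k) :
    (∏ v : InfinitePlace k, ENNReal.ofReal (x v ^ (v.mult - 1))) =
      ∏ w : {w : InfinitePlace k // IsComplex w}, ENNReal.ofReal (x w.1) := by
  have h1 : ∀ v : InfinitePlace k, ENNReal.ofReal (x v ^ (v.mult - 1)) =
      if IsComplex v then ENNReal.ofReal (x v) else 1 := by
    intro v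
    rcases isReal_or_isComplex v with h | h
    · rw [if_neg (not_isComplex_iff_isReal.2 h), mult, if_pos h, Nat.sub_self, pow_zero,
        ENNReal.ofReal_one]
    · rw [if_pos h, mult, if_neg (not_isReal_iff_isComplex.2 h)]
      norm_num
  rw [Finset.prod_congr rfl fun v _ => h1 v, Finset.prod_ite, Finset.prod_const_one, mul_one]
  exact (Finset.prod_subtype _ (fun v => by simp) _)

theorem avv : LeoC.AvvStmt := by
  intro k _ _ N A hA hpos
  rw [set_eq N A hpos]
  set S : Set (PS k) := flp N ⁻¹' A with hS
  have hSm : MeasurableSet S := (mp_flp N).measurable hA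
  have himg : (normAtComplexPlaces : MS k → PS k) '' (normAtComplexPlaces ⁻¹' S) = S := by
    apply Set.image_preimage_eq_of_subset
    intro x hx
    refine ⟨mixedSpaceOfRealSpace x, normAtComplexPlaces_mixedSpaceOfRealSpace fun w hw => ?_⟩
    have h1 := hpos _ hx w
    unfold flp at h1
    have h2 := sg_complex (N := N) ⟨w, hw⟩
    simp only at h2
    rw [h2, one_mul] at h1
    exact h1.le
  have h := volume_eq_two_pi_pow_mul_integral (K := k)
    (A := normAtComplexPlaces ⁻¹' S) (Set.preimage_image_preimage)
    (continuous_nacp.measurable hSm)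
  rw [h, himg]
  have hg : Measurable fun x : PS k =>
      ∏ w : {w : InfinitePlace k // IsComplex w}, ENNReal.ofReal (x w.1) := by fun_prop
  have h2 := (mp_flp N).setLIntegral_comp_preimage hA hg
  have h3 : ∀ x : PS k, (∏ w : {w : InfinitePlace k // IsComplex w},
      ENNReal.ofReal (flp N x w.1)) =
      ∏ w : {w : InfinitePlace k // IsComplex w}, ENNReal.ofReal (x w.1) := by
    intro x
    refine Finset.prod_congr rfl fun w _ => ?_
    unfold flp
    rw [sg_complex w, one_mul]
  have h4 : ∫⁻ x in S, ∏ w : {w : InfinitePlace k // IsComplex w}, ENNReal.ofReal (x w.1) =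
      ∫⁻ x in A, ∏ w : {w : InfinitePlace k // IsComplex w}, ENNReal.ofReal (x w.1) := by
    rw [← h2]
    exact lintegral_congr fun x => (h3 x).symm
  rw [h4, ENNReal.ofReal_pow (by positivity)]
  congr 1
  exact lintegral_congr fun x => (prod_eq x).symm

end Pool.Agent.LeoC.H25
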