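import Pool.Agent.LeoC.CountStmts
import Pool.Agent.Helper25_LeoC.Avv

/-!
# LEOC MSA: integers of the cone in residue classes
-/

set_option autoImplicit false

open NumberField NumberField.InfinitePlace NumberField.mixedEmbedding IsDedekindDomain Module
  MeasureTheory Filter Topology
open Pool.Agent.LeoK Pool.Agent.LeoG Pool.Agent.Leo3

open scoped Classical

namespace Pool.Agent.LeoC.H25

variable {k : Type} [Field k] [NumberField k]

/-- the embedding of the integers as an additive homomorphism -/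
noncomputable def embHom (k : Type) [Field k] [NumberField k] : 𝓞 k →+ MS k where
  toFun x := mixedEmbedding k (x : k)
  map_zero' := by simp
  map_add' x y := by simp

theorem embHom_apply (x : 𝓞 k) : embHom k x = mixedEmbedding k (x : k) := rfl

theorem embHom_inj : Function.Injective (embHom k) := by
  intro x y h
  exact NumberField.RingOfIntegers.ext (mixedEmbedding_injective k h)

theorem av_nonneg (y : MS k) (v : InfinitePlace k) : 0 ≤ av y v := norm_nonneg _

theorem av_le_norm (y : MS k) (v : InfinitePlace k) : av y v ≤ ‖y‖ := by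
  unfold av
  by_cases h : IsReal v
  · have h1 : ev v y = (y.1 ⟨v, h⟩ : ℂ) := ev_real ⟨v, h⟩ y
    rw [h1, Complex.norm_real]
    exact (norm_le_pi_norm y.1 ⟨v, h⟩).trans (norm_fst_le y)
  · have h0 : IsComplex v := not_isReal_iff_isComplex.mp h
    have h1 : ev v y = y.2 ⟨v, h0⟩ := ev_complex ⟨v, h0⟩ y
    rw [h1]
    exact (norm_le_pi_norm y.2 ⟨v, h0⟩).trans (norm_snd_le y)

theorem norm_le_av (y : MS k) (R : ℝ) (hR : 0 ≤ R) (h : ∀ v, av y v ≤ R) : ‖y‖ ≤ R := by
  rw [Prod.norm_def]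
  refine max_le ?_ ?_
  · rw [pi_norm_le_iff_of_nonneg hR]
    intro w
    have h1 := h w.1
    unfold av at h1
    rw [ev_real w y, Complex.norm_real] at h1
    exact h1
  · rw [pi_norm_le_iff_of_nonneg hR]
    intro w
    have h1 := h w.1
    unfold av at h1
    rw [ev_complex w y] at h1
    exact h1

theorem one_le_norm_emb (hevs : LeoC.EvsStmt) (x : 𝓞 k) (hx : x ≠ 0) : 1 ≤ ‖embHom k x‖ := by
  obtain ⟨-, -, -, -, -, -, -, -, h⟩ := hevs k
  have h1 := (h x hx).1
  by_contra hlt
  rw [not_le] at hlt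
  have h2 : nr (av (embHom k x)) ≤ ‖embHom k x‖ ^ finrank ℚ k := by
    unfold nr
    rw [← sum_mult_eq, ← Finset.prod_pow_eq_pow_sum]
    apply Finset.prod_le_prod
    · intro v _
      exact pow_nonneg (av_nonneg _ _) _
    · intro v _
      exact pow_le_pow_left₀ (av_nonneg _ _) (av_le_norm _ _) _
  have h3 : ‖embHom k x‖ ^ finrank ℚ k < 1 :=
    pow_lt_one₀ (norm_nonneg _) hlt finrank_pos.ne'
  rw [embHom_apply] at h2 h3
  linarith

theorem continuous_av (hevs : LeoC.EvsStmt) : Continuous (fun y : MS k => av y) := by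
  obtain ⟨-, -, -, -, -, hc, -⟩ := hevs k
  exact continuous_pi fun v => (hc v).norm

theorem isOpen_sgn (N : Set {w : InfinitePlace k // IsReal w}) : IsOpen {y : MS k | Sgn N y} := by
  have h : {y : MS k | Sgn N y} =
      (⋂ w : {w : InfinitePlace k // IsReal w}, {y : MS k | (w ∈ N → y.1 w < 0) ∧
        (w ∉ N → 0 < y.1 w)}) ∩
      ⋂ w : {w : InfinitePlace k // IsComplex w}, {y : MS k | y.2 w ≠ 0} := by
    ext y
    simp only [Sgn, Set.mem_ofPred_eq, Set.mem_inter_iff, Set.mem_iInter]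
  rw [h]
  refine IsOpen.inter (isOpen_iInter_of_finite fun w => ?_) (isOpen_iInter_of_finite fun w => ?_)
  · by_cases hw : w ∈ N
    · have h1 : {y : MS k | (w ∈ N → y.1 w < 0) ∧ (w ∉ N → 0 < y.1 w)} =
          {y : MS k | y.1 w < 0} := by
        ext y
        simp [hw]
      rw [h1]
      exact isOpen_lt ((continuous_apply w).comp continuous_fst) continuous_const
    · have h1 : {y : MS k | (w ∈ N → y.1 w < 0) ∧ (w ∉ N → 0 < y.1 w)} =
          {y : MS k | 0 < y.1 w} := by
        ext y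
        simp [hw]
      rw [h1]
      exact isOpen_lt continuous_const ((continuous_apply w).comp continuous_fst)
  · exact isOpen_ne_fun ((continuous_apply w).comp continuous_snd) continuous_const

theorem av_smul (y : MS k) (t : ℝ) (ht : 0 < t) : av (t • y) = t • av y := by
  funext v
  show ‖ev v (t • y)‖ = t * ‖ev v y‖
  by_cases h : IsReal v
  · have h1 : ∀ z : MS k, ev v z = (z.1 ⟨v, h⟩ : ℂ) := fun z => ev_real ⟨v, h⟩ z
    rw [h1, h1, Complex.norm_real, Complex.norm_real]
    show ‖t * y.1 ⟨v, h⟩‖ = _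
    rw [norm_mul, Real.norm_of_nonneg ht.le]
  · have h0 : IsComplex v := not_isReal_iff_isComplex.mp h
    have h1 : ∀ z : MS k, ev v z = z.2 ⟨v, h0⟩ := fun z => ev_complex ⟨v, h0⟩ z
    rw [h1, h1]
    show ‖t • y.2 ⟨v, h0⟩‖ = _
    rw [_root_.norm_smul, Real.norm_of_nonneg ht.le]

theorem sgn_smul (N : Set {w : InfinitePlace k // IsReal w}) (y : MS k) (t : ℝ) (ht : 0 < t)
    (h : Sgn N (t • y)) : Sgn N y := by
  refine ⟨fun w => ⟨fun hw => ?_, fun hw => ?_⟩, fun w hw => ?_⟩
  · have h1 : t * y.1 w < 0 := (h.1 w).1 hw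
    by_contra h2
    rw [not_lt] at h2
    have := mul_nonneg ht.le h2
    linarith
  · have h1 : 0 < t * y.1 w := (h.1 w).2 hw
    exact (mul_pos_iff_of_pos_left ht).1 h1
  · apply h.2 w
    show t • y.2 w = 0
    rw [hw, smul_zero]

theorem msa (havv : LeoC.AvvStmt) (hcon : LeoC.ConStmt) (hcov : LeoC.CovStmt)
    (hltl : LeoK.LtlStmt) (hmst : LeoC.MstStmt) (hevs : LeoC.EvsStmt) : LeoC.MsaStmt := by
  intro k _ _ Φ N I hI S ε hε
  obtain ⟨hD, hvF, hcF, hcmp, hnr, hT⟩ := hcon k Φ
  obtain ⟨-, -, hfinM⟩ : ∃ A : ℝ, 0 < A ∧ ∀ Z : ℝ, 0 < Z →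
      {m : 𝓞 k | av (mixedEmbedding k (m : k)) ∈ Φ.F ∧
        nr (av (mixedEmbedding k (m : k))) ≤ Z}.Finite := by
    obtain ⟨A, hA, h⟩ := hmst k Φ
    exact ⟨A, hA, fun Z hZ => (h Z hZ).1⟩
  set n := finrank ℚ k with hn
  have hn0 : 0 < n := finrank_pos
  obtain ⟨κ, hκ, B', hB'1, hB'2⟩ := hcov k I hI
  have hfin : Finite (𝓞 k ⧸ I) := Ideal.finiteQuotientOfFreeOfNeBot _ hI
  have hNpos : (0 : ℝ) < (Ideal.absNorm I : ℝ) := by
    have : Ideal.absNorm I ≠ 0 := by
      rw [Ne, Ideal.absNorm_eq_zero_iff]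
      exact hI
    exact_mod_cast Nat.pos_of_ne_zero this
  set W : ℝ := (2 * Real.pi) ^ nrComplexPlaces k * Φ.w with hW
  have hWpos : 0 < W := by
    have := Real.pi_pos
    positivity
  set U : Set (MS k) := {y | Sgn N y ∧ av y ∈ interior (Φ.F ∩ {x | nr x ≤ 1})} with hU
  have hUo : IsOpen U := by
    have h1 : U = {y | Sgn N y} ∩ (fun y : MS k => av y) ⁻¹' interior (Φ.F ∩ {x | nr x ≤ 1}) := rfl
    rw [h1]
    exact (isOpen_sgn N).inter (isOpen_interior.preimage (continuous_av hevs))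
  have hUb : Bornology.IsBounded U := by
    have h1 := (hT 1 one_pos).1
    rw [isBounded_iff_forall_norm_le] at h1 ⊢
    obtain ⟨C, hC⟩ := h1
    refine ⟨max C 0, fun y hy => ?_⟩
    apply norm_le_av _ _ (le_max_right _ _)
    intro v
    have h2 : ‖av y‖ ≤ C := hC _ (interior_subset hy.2)
    have h3 : av y v ≤ ‖av y v‖ := le_abs_self _
    exact (h3.trans (norm_le_pi_norm (av y) v)).trans (h2.trans (le_max_left _ _))
  have hUv : (volume U).toReal = W := by
    rw [hU, havv k N _ isOpen_interior.measurableSet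
      (fun x hx v => Φ.pos x (interior_subset hx).1 v), (hT 1 one_pos).2.2.2, mul_one,
      ENNReal.toReal_mul, ENNReal.toReal_ofReal (by have := Real.pi_pos; positivity),
      ENNReal.toReal_ofReal hvF.le]
  set K : ℝ := (S.ncard : ℝ) + 1 with hK
  have hKpos : 0 < K := by positivity
  set ε' : ℝ := ε * cov k * (Ideal.absNorm I : ℝ) / K with hε'
  have hε'pos : 0 < ε' := by positivity
  obtain ⟨t₀, ht₀, H⟩ := hltl (MS k) volume κ U hUo hUb 1
    (cov k * (Ideal.absNorm I : ℝ)) ε' one_pos hε'pos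
  refine ⟨max 1 (t₀ ^ n), ?_⟩
  intro Z hZ
  have hZ1 : 1 ≤ Z := (le_max_left _ _).trans hZ
  have hZt : t₀ ^ n ≤ Z := (le_max_right _ _).trans hZ
  have hZ0 : 0 < Z := by linarith
  set t : ℝ := Z ^ (1 / n : ℝ) with ht
  have htpos : 0 < t := Real.rpow_pos_of_pos hZ0 _
  have htn : t ^ n = Z := by
    rw [ht, one_div]
    exact Real.rpow_inv_natCast_pow hZ0.le hn0.ne'
  have htt : t₀ ≤ t := by
    by_contra hlt
    rw [not_le] at hlt
    have := pow_lt_pow_left₀ hlt htpos.le hn0.ne'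
    rw [htn] at this
    linarith
  -- representatives
  choose rep hrep using fun c : 𝓞 k ⧸ I => Ideal.Quotient.mk_surjective c
  have Hc : ∀ c : 𝓞 k ⧸ I, (W - ε') * Z ≤
      ({y : MS k | y ∈ Submodule.span ℤ (Set.range B') ∧
        t⁻¹ • (embHom k (rep c) + y) ∈ U}.ncard : ℝ) * (cov k * (Ideal.absNorm I : ℝ)) := by
    intro c
    have h1 := (H t htt B' (by
      intro y hy hy0
      obtain ⟨x, -, rfl⟩ := (hB'1 y).1 hy
      apply one_le_norm_emb hevs x
      rintro rfl
      exact hy0 (map_zero (embHom k))) hB'2.le (embHom k (rep c))).2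
    rw [hB'2, hUv, mixedEmbedding.finrank, htn] at h1
    exact h1
  -- the set of the statement
  set G : Set (𝓞 k) := {m : 𝓞 k | Ideal.Quotient.mk I m ∈ S ∧
    Sgn N (mixedEmbedding k (m : k)) ∧ av (mixedEmbedding k (m : k)) ∈ Φ.F ∧
    nr (av (mixedEmbedding k (m : k))) ≤ Z} with hG
  have hGfin : G.Finite := (hfinM Z hZ0).subset (fun m hm => hm.2.2)
  have hSfin : S.Finite := Set.toFinite S
  have hfib : ∀ c ∈ S, (W - ε') * Z ≤
      (((hGfin.toFinset).filter (fun m => Ideal.Quotient.mk I m = c)).card : ℝ) *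
        (cov k * (Ideal.absNorm I : ℝ)) := by
    intro c hc
    refine (Hc c).trans (mul_le_mul_of_nonneg_right ?_ (by positivity))
    set X := (hGfin.toFinset).filter (fun m => Ideal.Quotient.mk I m = c) with hX
    have h2 : {y : MS k | y ∈ Submodule.span ℤ (Set.range B') ∧
        t⁻¹ • (embHom k (rep c) + y) ∈ U} ⊆
        ((fun m : 𝓞 k => embHom k m - embHom k (rep c)) '' (X : Set (𝓞 k))) := by
      rintro y ⟨hy1, hy2⟩
      obtain ⟨x, hx, rfl⟩ := (hB'1 y).1 hy1
      refine ⟨rep c + x, ?_, ?_⟩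
      · have h3 : embHom k (rep c) + mixedEmbedding k (x : k) = embHom k (rep c + x) := by
          rw [map_add]
          rfl
        rw [h3] at hy2
        obtain ⟨hs, h40⟩ := hy2
        have h4 : av (t⁻¹ • embHom k (rep c + x)) ∈ Φ.F ∩ {x | nr x ≤ 1} := interior_subset h40
        rw [av_smul _ _ (inv_pos.2 htpos)] at h4
        have h5 : Ideal.Quotient.mk I (rep c + x) = c := by
          rw [map_add, Ideal.Quotient.eq_zero_iff_mem.2 hx, add_zero, hrep]
        rw [Finset.mem_coe, hX, Finset.mem_filter, Set.Finite.mem_toFinset]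
        refine ⟨⟨?_, ?_, ?_, ?_⟩, h5⟩
        · rw [h5]
          exact hc
        · exact sgn_smul N _ _ (inv_pos.2 htpos) hs
        · have h6 := Φ.scal _ h4.1 t htpos
          rw [smul_smul, mul_inv_cancel₀ htpos.ne', one_smul] at h6
          exact h6
        · have h7 : nr (t⁻¹ • av (embHom k (rep c + x))) ≤ 1 := h4.2
          rw [hnr, inv_pow, htn, inv_mul_le_iff₀ hZ0, mul_one] at h7
          exact h7
      · show embHom k (rep c + x) - embHom k (rep c) = mixedEmbedding k (x : k)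
        rw [map_add, add_sub_cancel_left]
        rfl
    have h9 := Set.ncard_le_ncard h2 ((Finset.finite_toSet X).image _)
    have h10 := Set.ncard_image_le (f := fun m : 𝓞 k => embHom k m - embHom k (rep c))
      (Finset.finite_toSet X)
    rw [Set.ncard_coe_finset] at h10
    exact_mod_cast h9.trans h10
  have hsum : (G.ncard : ℝ) = ∑ c ∈ hSfin.toFinset,
      (((hGfin.toFinset).filter (fun m => Ideal.Quotient.mk I m = c)).card : ℝ) := by
    rw [Set.ncard_eq_toFinset_card G hGfin]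
    rw [Finset.card_eq_sum_card_fiberwise (f := fun m => Ideal.Quotient.mk I m)
      (t := hSfin.toFinset)]
    · push_cast
      rfl
    · intro m hm
      rw [Finset.mem_coe, Set.Finite.mem_toFinset] at hm ⊢
      exact hm.1
  have hfinal : (S.ncard : ℝ) * ((W - ε') * Z) ≤
      (G.ncard : ℝ) * (cov k * (Ideal.absNorm I : ℝ)) := by
    rw [hsum, Finset.sum_mul]
    have h1 : (S.ncard : ℝ) * ((W - ε') * Z) = ∑ _c ∈ hSfin.toFinset, (W - ε') * Z := by
      rw [Finset.sum_const, nsmul_eq_mul, Set.ncard_eq_toFinset_card S hSfin]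
    rw [h1]
    apply Finset.sum_le_sum
    intro c hc
    exact hfib c ((Set.Finite.mem_toFinset hSfin).1 hc)
  have hDN : 0 < cov k * (Ideal.absNorm I : ℝ) := by positivity
  have h1 : (S.ncard : ℝ) * ε' ≤ ε * (cov k * (Ideal.absNorm I : ℝ)) := by
    have h2 : (S.ncard : ℝ) * ε' =
        ε * (cov k * (Ideal.absNorm I : ℝ)) * ((S.ncard : ℝ) / K) := by
      rw [hε']
      ring
    rw [h2]
    have h3 : (S.ncard : ℝ) / K ≤ 1 := by
      rw [div_le_one hKpos, hK]
      linarith
    have h4 : 0 ≤ ε * (cov k * (Ideal.absNorm I : ℝ)) := by positivity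
    exact mul_le_of_le_one_right h4 h3
  have h5 : ((S.ncard : ℝ) / (Ideal.absNorm I : ℝ) * W / cov k - ε) * Z *
      (cov k * (Ideal.absNorm I : ℝ)) ≤ (S.ncard : ℝ) * ((W - ε') * Z) := by
    have h6 : ((S.ncard : ℝ) / (Ideal.absNorm I : ℝ) * W / cov k - ε) * Z *
      (cov k * (Ideal.absNorm I : ℝ)) =
        (S.ncard : ℝ) * W * Z - ε * (cov k * (Ideal.absNorm I : ℝ)) * Z := by
      field_simp
    rw [h6]
    have h7 := mul_le_mul_of_nonneg_right h1 hZ0.le
    nlinarith [h7]
  exact le_of_mul_le_mul_right (h5.trans hfinal) hDN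

end Pool.Agent.LeoC.H25
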