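import Pool.Agent.LeoC.CountStmts

/-!
# LEOC RAT: all but the proportion `3 ^ (-u) / 2` of the family is good
-/

set_option autoImplicit false

open NumberField NumberField.InfinitePlace NumberField.mixedEmbedding IsDedekindDomain Module
  MeasureTheory Filter Topology
open Pool.Agent.LeoK Pool.Agent.LeoG Pool.Agent.Leo3

open scoped Classical

namespace Pool.Agent.LeoC.H25

/-- For every number field and sign pattern, all but the proportion `3 ^ (-u) / 2` of the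
family has the property `GoodG` for every field `K = k(√(3m))`. -/
theorem rat (hcnt : LeoC.CntStmt) (hadc : LeoC.AdcStmt) (hstg : LeoG.StgStmt)
    (hing : LeoG.IngStmt) : LeoC.RatStmt := by
  intro k _ _ Φ N ε hε
  obtain ⟨hfin, -, hcount⟩ := hcnt k Φ N
  filter_upwards [hcount ε hε] with Z hZ
  refine ⟨hfin Z, ?_⟩
  set bad : Set (𝓞 k) := {m | m ∈ Mset Φ N Z ∧ ((∃ x : k, x ^ 2 = 3 * (m : k)) ∨
    ∃ g : Q4 (𝓞 k), GIrr g ∧ mm g = m)} with hbad
  set good : Set (𝓞 k) := {m | m ∈ Mset Φ N Z ∧ (∀ x : k, x ^ 2 ≠ 3 * (m : k)) ∧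
    ∀ (K : Type) [Field K] [NumberField K] [Algebra k K] (r : K), finrank k K = 2 →
      r ^ 2 = algebraMap k K (3 * (m : k)) → GoodG k K} with hgood
  have hbs : bad ⊆ Mset Φ N Z := fun m hm => hm.1
  have hgs : good ⊆ Mset Φ N Z := fun m hm => hm.1
  have hsub : Mset Φ N Z \ bad ⊆ good := by
    rintro m ⟨hm, hmb⟩
    have h1 : ¬ ((∃ x : k, x ^ 2 = 3 * (m : k)) ∨ ∃ g : Q4 (𝓞 k), GIrr g ∧ mm g = m) :=
      fun h => hmb ⟨hm, h⟩
    push Not at h1
    obtain ⟨h2, h3⟩ := h1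
    refine ⟨hm, h2, ?_⟩
    intro K _ _ _ r hK hr
    obtain ⟨-, -, -, htwo, hloc⟩ := hm
    have hadm : AdmG k m := hadc k m hloc htwo h2
    by_cases hw : WMinus k K
    · exact hing k K m r hK hr hadm hw
    · obtain ⟨g, hg, hgm⟩ := hstg k K m r hK hr hadm hw
      exact absurd hgm (h3 g hg)
  have hc1 : ((Mset Φ N Z \ bad).ncard : ℝ) = (Mset Φ N Z).ncard - bad.ncard := by
    have h := Set.ncard_sdiff_add_ncard_of_subset hbs (hfin Z)
    have h' : ((Mset Φ N Z \ bad).ncard : ℝ) + bad.ncard = (Mset Φ N Z).ncard := by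
      exact_mod_cast h
    linarith
  have hc2 : ((Mset Φ N Z \ bad).ncard : ℝ) ≤ good.ncard := by
    exact_mod_cast Set.ncard_le_ncard hsub ((hfin Z).subset hgs)
  have h3 : (1 - 1 / (2 * 3 ^ un N) - ε) * ((Mset Φ N Z).ncard : ℝ) =
      (Mset Φ N Z).ncard - (1 / (2 * 3 ^ un N) + ε) * ((Mset Φ N Z).ncard : ℝ) := by ring
  rw [h3]
  linarith

end Pool.Agent.LeoC.H25
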